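import Pool.Agent.helper95.FI.SpecV
import Pool.Agent.helper85.BVP.Vaughan

set_option autoImplicit false

open Finset

namespace Pool.Agent.FI

private theorem VGI_sub (f g : ArithmeticFunction ℝ) (n : ℕ) : (f - g) n = f n - g n := by
  rw [sub_eq_add_neg, ArithmeticFunction.add_apply, sub_eq_add_neg]
  rfl

private theorem VGI_trunc (f : ArithmeticFunction ℝ) (V n : ℕ) :
    Pool.Agent.helper85.BVP.trunc f V n = if n ≤ V then f n else 0 := rfl

private theorem VGI_Mr (d : ℕ) : Pool.Agent.helper85.BVP.Mr d = (ArithmeticFunction.moebius d : ℝ) :=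
  ArithmeticFunction.intCoe_apply

private theorem VGI_beta (V k : ℕ) : Pool.Agent.helper85.BVP.beta V k = al V k := by
  unfold Pool.Agent.helper85.BVP.beta al
  rw [ArithmeticFunction.coe_mul_zeta_apply, sum_filter]
  refine sum_congr rfl fun d _ => ?_
  rw [VGI_sub, VGI_trunc, VGI_Mr]
  by_cases h : V < d
  · rw [if_pos h, if_neg (by omega), sub_zero]
  · rw [if_neg h, if_pos (by omega), sub_self]

private theorem VGI_cc (U V q : ℕ) :
    (Pool.Agent.helper85.BVP.trunc ArithmeticFunction.vonMangoldt U *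
      Pool.Agent.helper85.BVP.trunc Pool.Agent.helper85.BVP.Mr V) q = cc U V q := by
  rw [ArithmeticFunction.mul_apply]
  rw [Nat.sum_divisorsAntidiagonal (fun i j => Pool.Agent.helper85.BVP.trunc ArithmeticFunction.vonMangoldt U i *
      Pool.Agent.helper85.BVP.trunc Pool.Agent.helper85.BVP.Mr V j)]
  unfold cc
  rw [sum_filter]
  refine sum_congr rfl fun m _ => ?_
  rw [VGI_trunc, VGI_trunc, VGI_Mr]
  by_cases h1 : m ≤ U
  · by_cases h2 : q / m ≤ V
    · rw [if_pos h1, if_pos h2, if_pos ⟨h1, h2⟩]
    · have h3 : ¬ (m ≤ U ∧ q / m ≤ V) := fun h => h2 h.2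
      rw [if_pos h1, if_neg h2, if_neg h3, mul_zero]
  · have h3 : ¬ (m ≤ U ∧ q / m ≤ V) := fun h => h1 h.1
    rw [if_neg h1, if_neg h3, zero_mul]

private theorem VGI_mu (d : ℕ) : |(ArithmeticFunction.moebius d : ℝ)| ≤ 1 := by
  have h := ArithmeticFunction.abs_moebius_le_one (n := d)
  have h2 : ((|ArithmeticFunction.moebius d| : ℤ) : ℝ) ≤ ((1 : ℤ) : ℝ) := by exact_mod_cast h
  push_cast at h2
  exact h2

private theorem VGI_card (s : Finset ℕ) : |∑ d ∈ s, (ArithmeticFunction.moebius d : ℝ)| ≤ #s := by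
  refine (abs_sum_le_sum_abs _ _).trans ?_
  refine (sum_le_sum fun d _ => VGI_mu d).trans ?_
  rw [sum_const, nsmul_eq_mul, mul_one]

private theorem VGI_id (U V n : ℕ) (hn : U < n) :
    ArithmeticFunction.vonMangoldt n = ∑ d ∈ n.divisors with d ≤ V, (ArithmeticFunction.moebius d : ℝ) * Real.log (n / d : ℝ)
    - ∑ q ∈ n.divisors, cc U V q + ∑ m ∈ n.divisors with U < m, ArithmeticFunction.vonMangoldt m * al V (n / m) := by
  have h0 := congrArg (fun f : ArithmeticFunction ℝ => f n) (Pool.Agent.helper85.BVP.vaughan U V)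
  simp only [ArithmeticFunction.add_apply, VGI_sub] at h0
  have h1 : Pool.Agent.helper85.BVP.trunc ArithmeticFunction.vonMangoldt U n = 0 := by
    rw [VGI_trunc, if_neg (by omega)]
  have h2 : (Pool.Agent.helper85.BVP.trunc Pool.Agent.helper85.BVP.Mr V * ArithmeticFunction.log) n =
      ∑ d ∈ n.divisors with d ≤ V, (ArithmeticFunction.moebius d : ℝ) * Real.log (n / d : ℝ) := by
    rw [ArithmeticFunction.mul_apply, Nat.sum_divisorsAntidiagonal
      (fun i j => Pool.Agent.helper85.BVP.trunc Pool.Agent.helper85.BVP.Mr V i * ArithmeticFunction.log j), sum_filter]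
    refine sum_congr rfl fun d hd => ?_
    rw [VGI_trunc, VGI_Mr, ArithmeticFunction.log_apply]
    have hdn := Nat.dvd_of_mem_divisors hd
    have hd0 : (d : ℝ) ≠ 0 := by
      have := Nat.pos_of_mem_divisors hd
      exact_mod_cast this.ne'
    rw [Nat.cast_div hdn hd0]
    by_cases h : d ≤ V
    · rw [if_pos h, if_pos h]
    · rw [if_neg h, if_neg h, zero_mul]
  have h3 : (Pool.Agent.helper85.BVP.trunc Pool.Agent.helper85.BVP.Mr V *
      (Pool.Agent.helper85.BVP.trunc ArithmeticFunction.vonMangoldt U * Pool.Agent.helper85.BVP.Zr)) n =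
      ∑ q ∈ n.divisors, cc U V q := by
    rw [← mul_assoc, mul_comm (Pool.Agent.helper85.BVP.trunc Pool.Agent.helper85.BVP.Mr V),
      ArithmeticFunction.coe_mul_zeta_apply]
    exact sum_congr rfl fun q _ => VGI_cc U V q
  have h4 : ((ArithmeticFunction.vonMangoldt - Pool.Agent.helper85.BVP.trunc ArithmeticFunction.vonMangoldt U) *
      Pool.Agent.helper85.BVP.beta V) n =
      ∑ m ∈ n.divisors with U < m, ArithmeticFunction.vonMangoldt m * al V (n / m) := by
    rw [ArithmeticFunction.mul_apply, Nat.sum_divisorsAntidiagonal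
      (fun i j => (ArithmeticFunction.vonMangoldt - Pool.Agent.helper85.BVP.trunc ArithmeticFunction.vonMangoldt U) i *
        Pool.Agent.helper85.BVP.beta V j), sum_filter]
    refine sum_congr rfl fun m _ => ?_
    rw [VGI_sub, VGI_trunc, VGI_beta]
    by_cases h : U < m
    · rw [if_pos h, if_neg (by omega), sub_zero]
    · rw [if_neg h, if_pos (by omega), sub_self, zero_mul]
  rw [h1, h2, h3, h4, zero_add] at h0
  exact h0

theorem VGI : VGI_stmt := by
  intro U V n hU hV hn
  have hn0 : n ≠ 0 := by omega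
  have hn1 : n ≠ 1 := by omega
  refine ⟨VGI_id U V n hn, ?_, ?_, ?_, ?_, ?_⟩
  · have h1 : ∑ d ∈ n.divisors, (ArithmeticFunction.moebius d : ℝ) = 0 := by
      have h2 := congrArg (fun f : ArithmeticFunction ℝ => f n)
        (ArithmeticFunction.coe_moebius_mul_coe_zeta (R := ℝ))
      rw [ArithmeticFunction.coe_mul_zeta_apply, ArithmeticFunction.one_apply_ne hn1] at h2
      rw [← h2]
      exact sum_congr rfl fun d _ => (VGI_Mr d).symm
    have h2 := sum_filter_add_sum_filter_not n.divisors (fun d => V < d)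
      (fun d => (ArithmeticFunction.moebius d : ℝ))
    rw [h1] at h2
    have h3 : al V n = -∑ d ∈ n.divisors with ¬ V < d, (ArithmeticFunction.moebius d : ℝ) := by
      unfold al
      linarith
    rw [h3, abs_neg]
    refine (VGI_card _).trans ?_
    have h4 : #(n.divisors.filter fun d => ¬ V < d) ≤ #(Icc 1 V) := by
      refine card_le_card fun d hd => ?_
      rw [mem_filter] at hd
      have := Nat.pos_of_mem_divisors hd.1
      rw [mem_Icc]
      omega
    rw [Nat.card_Icc, Nat.add_sub_cancel] at h4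
    exact_mod_cast h4
  · unfold al
    refine (VGI_card _).trans ?_
    exact_mod_cast card_filter_le _ _
  · intro hnV
    unfold al
    rw [filter_eq_empty_iff.2, sum_empty]
    intro d hd
    have := Nat.divisor_le hd
    omega
  · unfold cc
    refine (abs_sum_le_sum_abs _ _).trans ?_
    rw [← ArithmeticFunction.vonMangoldt_sum]
    refine (sum_le_sum (g := fun m => ArithmeticFunction.vonMangoldt m) fun m _ => ?_).trans ?_
    · rw [abs_mul, abs_of_nonneg ArithmeticFunction.vonMangoldt_nonneg]
      exact mul_le_of_le_one_right ArithmeticFunction.vonMangoldt_nonneg (VGI_mu _)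
    · exact sum_le_sum_of_subset_of_nonneg (filter_subset _ _)
        fun m _ _ => ArithmeticFunction.vonMangoldt_nonneg
  · intro hUV
    unfold cc
    rw [filter_eq_empty_iff.2, sum_empty]
    intro m hm h
    have hmn := Nat.dvd_of_mem_divisors hm
    have h1 : m * (n / m) = n := Nat.mul_div_cancel' hmn
    have h2 : m * (n / m) ≤ U * V := Nat.mul_le_mul h.1 h.2
    omega

end Pool.Agent.FI
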